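import Mathlib
import Pool.Agent.H466Z.WLDefs
import Pool.Agent.H466Z.WLMain

/-!
For every `k = j + 1` there are a finite vertex-transitive simple graph `G`, which the
`k`-dimensional method refines to its orbits, and a vertex `v` such that the method does not
refine `G_v` to its orbits.
-/

set_option autoImplicit false

namespace Pool.Agent.Results.MP_493565_co.Counterexample

open Pool.Agent.H466Z.WL

theorem result (j : ℕ) :
    ∃ (V : Type) (_ : Fintype V) (G : SimpleGraph V) (v : V),
      (∀ x y : V, ∃ ψ : G ≃g G, ψ x = y) ∧ Refines j G (fun _ => ()) ∧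
        ¬ Refines j G (stabilise (fun _ => ()) v) :=
  ⟨Vx (j + 1), inferInstance, Gr (j + 1), base 0, main j⟩

end Pool.Agent.Results.MP_493565_co.Counterexample
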